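import Pool.Agent.U165.SC.LD
import Pool.Agent.H395R2.G3.Rate

set_option autoImplicit false

/-!
# The randomly perturbed 3x+1 map: scaled stopping time constant and large deviations
-/

namespace Pool.Agent.U165.SC

open Finset MeasureTheory Filter Pool.Agent.U762.RP
open scoped ENNReal

theorem opt2 {α e : ℝ} (h1 : ((1 / 2) * Real.log (4 / 3))⁻¹ < α) (he0 : 0 < e) (he1 : e < 1)
    (h2 : 1 - α * (⨆ θ : ℝ, (θ * (1 / α) - lm θ)) < e) :
    ∃ θ α' E : ℝ, 0 < θ ∧ rh 2 (mq 3) θ < 1 ∧ 0 < α' ∧ α' < α ∧ 0 ≤ E ∧ E < e ∧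
      1 + θ + α' * Real.log (rh 2 (mq 3) θ) < E := by
  have hl : 0 < Real.log (4 / 3) := Real.log_pos (by norm_num)
  have hα : 0 < α := lt_trans (by positivity) h1
  have h3 : 1 < α * ((1 / 2) * Real.log (4 / 3)) := by
    rwa [inv_lt_iff_one_lt_mul₀ (by positivity)] at h1
  have h4 : (1 - e) / α < ⨆ θ : ℝ, (θ * (1 / α) - lm θ) := by
    rw [div_lt_iff₀ hα]
    linarith
  obtain ⟨t, ht⟩ := exists_lt_of_lt_ciSup h4
  have h6 : 1 - e < t - α * lm t := by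
    rw [div_lt_iff₀ hα] at ht
    have : (t * (1 / α) - lm t) * α = t - α * lm t := by
      field_simp
    linarith
  have ht0 : t < 0 := by
    by_contra h
    have h7 : 0 ≤ t := not_lt.1 h
    have h8 := lm_ge t
    have h9 : α * (t / 2 * Real.log (4 / 3)) ≤ α * lm t := mul_le_mul_of_nonneg_left h8 hα.le
    have h10 : α * (t / 2 * Real.log (4 / 3)) = t * (α * ((1 / 2) * Real.log (4 / 3))) := by ring
    have h11 : t * 1 ≤ t * (α * ((1 / 2) * Real.log (4 / 3))) :=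
      mul_le_mul_of_nonneg_left h3.le h7
    linarith
  have h12 : 0 < α * (-lm t) := by linarith
  have h13 : 0 < -lm t := by
    by_contra h
    have := mul_nonpos_of_nonneg_of_nonpos hα.le (not_lt.1 h)
    linarith
  set g : ℝ := e - (1 - t + α * lm t) with hg
  have hg0 : 0 < g := by rw [hg]; linarith
  set δ : ℝ := min (α / 2) (g / (2 * (-lm t))) with hδ
  have hδ0 : 0 < δ := lt_min (by positivity) (by positivity)
  have hδ1 : δ ≤ α / 2 := min_le_left _ _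
  have hδ2 : δ * (-lm t) ≤ g / 2 := by
    have h14 : δ * (-lm t) ≤ g / (2 * (-lm t)) * (-lm t) :=
      mul_le_mul_of_nonneg_right (min_le_right _ _) h13.le
    have hne : lm t ≠ 0 := (neg_pos.1 h13).ne
    have h15 : g / (2 * (-lm t)) * (-lm t) = g / 2 := by
      field_simp
    linarith
  set b : ℝ := 1 - t + (α - δ) * lm t with hb
  have hbe : b < e := by
    have h16 : b = (1 - t + α * lm t) + δ * (-lm t) := by rw [hb]; ring
    rw [h16]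
    linarith
  refine ⟨-t, α - δ, max b 0 / 2 + e / 2, by linarith, ?_, by linarith, by linarith, ?_, ?_, ?_⟩
  · have h15 : 0 < rh 2 (mq 3) (-t) := by
      rw [rh_three]
      positivity
    refine (Real.log_neg_iff h15).1 ?_
    rw [log_rh, neg_neg]
    linarith
  · have := le_max_right b 0
    linarith
  · have h17 : max b 0 < e := max_lt hbe he0
    linarith
  · rw [log_rh, neg_neg]
    have h18 : 1 + -t + (α - δ) * lm t = b := by rw [hb]; ring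
    rw [h18]
    rcases le_total b 0 with h19 | h19
    · rw [max_eq_right h19]
      linarith
    · rw [max_eq_left h19]
      linarith

/-- from the count with constants to the count for large `X` -/
theorem large2 {F : ℤ → ℝ} {α α' C E e : ℝ} (hα' : 0 < α') (hαα : α' < α) (hC : 0 ≤ C)
    (hE : 0 ≤ E) (hEe : E < e)
    (h : ∀ X : ℝ, 1 ≤ X → {x : ℤ | |(x : ℝ)| ≤ X ∧ α' * Real.log (2 + |(x : ℝ)|) + C < F x}.Finite ∧
      ({x : ℤ | |(x : ℝ)| ≤ X ∧ α' * Real.log (2 + |(x : ℝ)|) + C < F x}.ncard : ℝ) ≤ C * X ^ E) :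
    ∃ X₀ : ℝ, 1 ≤ X₀ ∧ ∀ X : ℝ, X₀ ≤ X →
      {x : ℤ | |(x : ℝ)| ≤ X ∧ α * Real.log |(x : ℝ)| ≤ F x}.Finite ∧
      ({x : ℤ | |(x : ℝ)| ≤ X ∧ α * Real.log |(x : ℝ)| ≤ F x}.ncard : ℝ) ≤ X ^ e := by
  obtain ⟨N, hN⟩ := exists_nat_gt (max 2 (Real.exp ((α' * Real.log 2 + C) / (α - α'))))
  set K : ℝ := 2 * N + 1 + C with hK
  have hK1 : 1 ≤ K := by
    rw [hK]
    have : (0 : ℝ) ≤ N := Nat.cast_nonneg N
    linarith
  refine ⟨K ^ (1 / (e - E)), Real.one_le_rpow hK1 (by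
    apply div_nonneg zero_le_one
    linarith), fun X hX => ?_⟩
  have hX1 : 1 ≤ X := le_trans (Real.one_le_rpow hK1 (by
    apply div_nonneg zero_le_one
    linarith)) hX
  obtain ⟨hf, hc⟩ := h X hX1
  have hI : (Set.Icc (-(N : ℤ)) (N : ℤ)).Finite := Set.finite_Icc _ _
  have hsub : {x : ℤ | |(x : ℝ)| ≤ X ∧ α * Real.log |(x : ℝ)| ≤ F x} ⊆
      Set.Icc (-(N : ℤ)) (N : ℤ) ∪
        {x : ℤ | |(x : ℝ)| ≤ X ∧ α' * Real.log (2 + |(x : ℝ)|) + C < F x} := by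
    rintro x ⟨hx1, hx2⟩
    by_cases hxN : |x| ≤ (N : ℤ)
    · exact Or.inl (abs_le.1 hxN)
    · right
      refine ⟨hx1, lt_of_lt_of_le ?_ hx2⟩
      have hxN' : (N : ℝ) ≤ |(x : ℝ)| := by
        have : (N : ℤ) ≤ |x| := (not_le.1 hxN).le
        exact_mod_cast this
      have hx3 : 2 ≤ |(x : ℝ)| := ((le_max_left _ _).trans hN.le).trans hxN'
      have hx4 : Real.exp ((α' * Real.log 2 + C) / (α - α')) < |(x : ℝ)| :=
        lt_of_lt_of_le (lt_of_le_of_lt (le_max_right _ _) hN) hxN'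
      have hx0 : 0 < |(x : ℝ)| := by linarith
      have h1 : (α' * Real.log 2 + C) / (α - α') < Real.log |(x : ℝ)| := by
        rw [Real.lt_log_iff_exp_lt hx0]
        exact hx4
      have h2 : α' * Real.log 2 + C < (α - α') * Real.log |(x : ℝ)| := by
        rw [div_lt_iff₀ (by linarith)] at h1
        linarith
      have h3 : Real.log (2 + |(x : ℝ)|) ≤ Real.log 2 + Real.log |(x : ℝ)| := by
        rw [← Real.log_mul (by norm_num) hx0.ne']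
        apply Real.log_le_log (by linarith)
        linarith
      have h5 : α' * Real.log (2 + |(x : ℝ)|) ≤ α' * (Real.log 2 + Real.log |(x : ℝ)|) :=
        mul_le_mul_of_nonneg_left h3 hα'.le
      nlinarith
  refine ⟨(hI.union hf).subset hsub, ?_⟩
  have h6 : ({x : ℤ | |(x : ℝ)| ≤ X ∧ α * Real.log |(x : ℝ)| ≤ F x}.ncard : ℝ) ≤
      ((Set.Icc (-(N : ℤ)) (N : ℤ)).ncard : ℝ) +
        ({x : ℤ | |(x : ℝ)| ≤ X ∧ α' * Real.log (2 + |(x : ℝ)|) + C < F x}.ncard : ℝ) := by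
    have h7 := Set.ncard_le_ncard hsub (hI.union hf)
    have h8 := Set.ncard_union_le (Set.Icc (-(N : ℤ)) (N : ℤ))
      {x : ℤ | |(x : ℝ)| ≤ X ∧ α' * Real.log (2 + |(x : ℝ)|) + C < F x}
    exact_mod_cast h7.trans h8
  have h9 : ((Set.Icc (-(N : ℤ)) (N : ℤ)).ncard : ℝ) = 2 * N + 1 := by
    rw [← Finset.coe_Icc, Set.ncard_coe_finset, Int.card_Icc]
    have : ((N : ℤ) + 1 - -(N : ℤ)).toNat = 2 * N + 1 := by omega
    rw [this]
    push_cast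
    ring
  have hXE : 1 ≤ X ^ E := Real.one_le_rpow hX1 hE
  have h10 : (2 * (N : ℝ) + 1) + C * X ^ E ≤ K * X ^ E := by
    rw [hK]
    have : (0 : ℝ) ≤ N := Nat.cast_nonneg N
    nlinarith
  have h11 : K ≤ X ^ (e - E) := by
    have h12 : (K ^ (1 / (e - E))) ^ (e - E) ≤ X ^ (e - E) :=
      Real.rpow_le_rpow (by positivity) hX (by linarith)
    rwa [← Real.rpow_mul (by linarith), one_div, inv_mul_cancel₀ (by linarith), Real.rpow_one] at h12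
  have h13 : K * X ^ E ≤ X ^ e := by
    calc K * X ^ E ≤ X ^ (e - E) * X ^ E := mul_le_mul_of_nonneg_right h11 (by linarith)
      _ = X ^ e := by
          rw [← Real.rpow_add (by linarith)]
          congr 1
          ring
  rw [h9] at h6
  linarith

/-- the perturbed `3x+1` map -/
theorem stp_col (ω : ℤ → ℤ) : stp 2 (mq 3) rq ω = fun x => col 3 x + ω x := by
  funext x
  unfold stp
  rw [T_col]

theorem gamma_bound (B : ℕ) (μ : Measure ℤ) [IsProbabilityMeasure μ] (hR : GenC 2 (mq 3) rq)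
    (hB : μ {u : ℤ | (B : ℤ) < |u|} = 0)
    (hE : ∀ j : ℤ, 0 ≤ j → j < (2 : ℕ) → μ {u : ℤ | u % ((2 : ℕ) : ℤ) = j} = ((2 : ℕ) : ℝ≥0∞)⁻¹)
    {γ : ℝ} (h1 : ((1 / 2) * Real.log (4 / 3))⁻¹ < γ)
    (h2 : γ * (⨆ θ : ℝ, (θ * (1 / γ) - lm θ)) = 1) :
    ∀ᵐ ω ∂(Measure.infinitePi fun _ : ℤ => μ),
      (∀ x : ℤ, (Set.range fun i : ℕ => (stp 2 (mq 3) rq ω)^[i] x).Finite) ∧
      ∀ ε : ℝ, 0 < ε → ∃ N : ℕ, ∀ x : ℤ, (N : ℤ) ≤ |x| →
        ((Set.range fun i : ℕ => (stp 2 (mq 3) rq ω)^[i] x).ncard : ℝ) ≤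
          (γ + ε) * Real.log |(x : ℝ)| ∧
        ∃ k : ℕ, (k : ℝ) ≤ (γ + ε) * Real.log |(x : ℝ)| ∧
          (stp 2 (mq 3) rq ω)^[k] x ∈ Function.periodicPts (stp 2 (mq 3) rq ω) := by
  have hl : 0 < Real.log (4 / 3) := Real.log_pos (by norm_num)
  have hγ : 0 < γ := lt_trans (by positivity) h1
  have hall : ∀ᵐ ω ∂(Measure.infinitePi fun _ : ℤ => μ), ∀ n : ℕ, ∃ C : ℝ, ∀ x : ℤ,
      (Set.range fun i : ℕ => (stp 2 (mq 3) rq ω)^[i] x).Finite ∧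
      ((Set.range fun i : ℕ => (stp 2 (mq 3) rq ω)^[i] x).ncard : ℝ) ≤
        (γ + 1 / ((n : ℝ) + 1)) * Real.log (2 + |(x : ℝ)|) + C := by
    rw [ae_all_iff]
    intro n
    have hn : 0 < 1 / ((n : ℝ) + 1) := by positivity
    obtain ⟨θ, hθ, hρ, hc⟩ := opt h1 h2 (show γ < γ + 1 / ((n : ℝ) + 1) by linarith)
    exact gen hR B μ hB hE hθ hρ hc
  filter_upwards [hall] with ω hω
  refine ⟨fun x => ?_, fun ε hε => ?_⟩
  · obtain ⟨C, hC⟩ := hω 0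
    exact (hC x).1
  · obtain ⟨n, hn⟩ := exists_nat_one_div_lt hε
    obtain ⟨C, hC⟩ := hω n
    have hn0 : 0 < 1 / ((n : ℝ) + 1) := by positivity
    exact large (by linarith) (show γ + 1 / ((n : ℝ) + 1) < γ + ε by linarith) hC

theorem ld_bound (B : ℕ) (μ : Measure ℤ) [IsProbabilityMeasure μ] (hR : GenC 2 (mq 3) rq)
    (hB : μ {u : ℤ | (B : ℤ) < |u|} = 0)
    (hE : ∀ j : ℤ, 0 ≤ j → j < (2 : ℕ) → μ {u : ℤ | u % ((2 : ℕ) : ℤ) = j} = ((2 : ℕ) : ℝ≥0∞)⁻¹)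
    {α : ℝ} (h1 : ((1 / 2) * Real.log (4 / 3))⁻¹ < α) :
    ∀ᵐ ω ∂(Measure.infinitePi fun _ : ℤ => μ),
      ∀ e : ℝ, 0 < e → e < 1 → 1 - α * (⨆ θ : ℝ, (θ * (1 / α) - lm θ)) < e →
        ∃ X₀ : ℝ, 1 ≤ X₀ ∧ ∀ X : ℝ, X₀ ≤ X →
          {x : ℤ | |(x : ℝ)| ≤ X ∧ α * Real.log |(x : ℝ)| ≤
            ((Set.range fun i : ℕ => (stp 2 (mq 3) rq ω)^[i] x).ncard : ℝ)}.Finite ∧
          ({x : ℤ | |(x : ℝ)| ≤ X ∧ α * Real.log |(x : ℝ)| ≤
            ((Set.range fun i : ℕ => (stp 2 (mq 3) rq ω)^[i] x).ncard : ℝ)}.ncard : ℝ) ≤ X ^ e := by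
  have hall : ∀ᵐ ω ∂(Measure.infinitePi fun _ : ℤ => μ), ∀ q : ℚ, 0 < (q : ℝ) → (q : ℝ) < 1 →
      1 - α * (⨆ θ : ℝ, (θ * (1 / α) - lm θ)) < (q : ℝ) →
        ∃ X₀ : ℝ, 1 ≤ X₀ ∧ ∀ X : ℝ, X₀ ≤ X →
          {x : ℤ | |(x : ℝ)| ≤ X ∧ α * Real.log |(x : ℝ)| ≤
            ((Set.range fun i : ℕ => (stp 2 (mq 3) rq ω)^[i] x).ncard : ℝ)}.Finite ∧
          ({x : ℤ | |(x : ℝ)| ≤ X ∧ α * Real.log |(x : ℝ)| ≤
            ((Set.range fun i : ℕ => (stp 2 (mq 3) rq ω)^[i] x).ncard : ℝ)}.ncard : ℝ) ≤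
              X ^ (q : ℝ) := by
    rw [ae_all_iff]
    intro q
    by_cases hq : 0 < (q : ℝ) ∧ (q : ℝ) < 1 ∧ 1 - α * (⨆ θ : ℝ, (θ * (1 / α) - lm θ)) < (q : ℝ)
    · obtain ⟨θ, α', E, hθ, hρ, hα', hαα, hE0, hEe, hlt⟩ := opt2 h1 hq.1 hq.2.1 hq.2.2
      filter_upwards [ld hR B μ hB hE hθ hρ hα' hE0 hlt] with ω hω _ _ _
      obtain ⟨C, hC0, hC⟩ := hω
      exact large2 hα' hαα hC0 hE0 hEe hC
    · exact Filter.Eventually.of_forall fun ω a b c => absurd ⟨a, b, c⟩ hq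
  filter_upwards [hall] with ω hω e he0 he1 he2
  obtain ⟨q, hq1, hq2⟩ := exists_rat_btwn (max_lt he2 he0)
  obtain ⟨X₀, hX₀, h⟩ := hω q (lt_of_le_of_lt (le_max_right _ _) hq1) (hq2.trans he1)
    (lt_of_le_of_lt (le_max_left _ _) hq1)
  refine ⟨X₀, hX₀, fun X hX => ⟨(h X hX).1, (h X hX).2.trans ?_⟩⟩
  exact Real.rpow_le_rpow_of_exponent_le (hX₀.trans hX) hq2.le

end Pool.Agent.U165.SC
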