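import Pool.Agent.U165.SC.LD

set_option autoImplicit false

/-!
# The average length of the orbits
-/

namespace Pool.Agent.U165.SC

open Finset MeasureTheory Filter Pool.Agent.U762.RP Topology
open scoped ENNReal

/-- minus the mean of `log (m_j / d)` -/
noncomputable def dr (d : ℕ) (m : ℤ → ℤ) : ℝ := -(∑ j ∈ range d, Real.log ((m (j : ℤ) : ℝ) / d)) / d

theorem rh_zero {d : ℕ} (hd : 0 < d) (m : ℤ → ℤ) : rh d m 0 = 1 := by
  unfold rh
  have hdR : (0 : ℝ) < d := by exact_mod_cast hd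
  simp only [Real.rpow_zero, sum_const, card_range, nsmul_eq_mul, mul_one]
  exact div_self hdR.ne'

theorem rh_deriv {d : ℕ} {m r : ℤ → ℤ} (hR : GenC d m r) :
    HasDerivAt (fun θ : ℝ => rh d m θ) (-dr d m) 0 := by
  have hd : 0 < d := by
    have := hR.two_le
    omega
  have hdR : (0 : ℝ) < d := by exact_mod_cast hd
  have h1 : HasDerivAt (fun θ : ℝ => ∑ j ∈ range d, ((m (j : ℤ) : ℝ) / d) ^ θ)
      (∑ j ∈ range d, Real.log ((m (j : ℤ) : ℝ) / d)) 0 := by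
    have h2 : ∀ j ∈ range d, HasDerivAt (fun θ : ℝ => ((m (j : ℤ) : ℝ) / d) ^ θ)
        (Real.log ((m (j : ℤ) : ℝ) / d)) 0 := by
      intro j hj
      have h3 : 0 < m (j : ℤ) := hR.pos j (by positivity) (by exact_mod_cast mem_range.1 hj)
      have h4 : (0 : ℝ) < m (j : ℤ) := by exact_mod_cast h3
      have h5 := (hasDerivAt_id (0 : ℝ)).const_rpow (show 0 < (m (j : ℤ) : ℝ) / d by positivity)
      simpa using h5
    exact HasDerivAt.fun_sum h2
  have h7 := h1.div_const (d : ℝ)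
  have h8 : -dr d m = (∑ j ∈ range d, Real.log ((m (j : ℤ) : ℝ) / d)) / d := by
    unfold dr
    rw [neg_div, neg_neg]
  rw [h8]
  exact h7

theorem small {d : ℕ} {m r : ℤ → ℤ} (hR : GenC d m r) {α : ℝ} (hα : 0 < α)
    (h : 1 < α * dr d m) : ∃ θ : ℝ, 0 < θ ∧ rh d m θ < 1 ∧ θ + α * Real.log (rh d m θ) < 0 := by
  have hd : 0 < d := by
    have := hR.two_le
    omega
  have h0 := rh_zero hd m
  have h1 : HasDerivAt (fun θ : ℝ => θ + α * Real.log (rh d m θ)) (1 + α * (-dr d m)) 0 := by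
    have h2 := (rh_deriv hR).log (by simp only [h0]; norm_num)
    have h3 := (hasDerivAt_id (0 : ℝ)).add (h2.const_mul α)
    simp only [h0, div_one] at h3
    exact h3
  set F : ℝ → ℝ := fun θ : ℝ => θ + α * Real.log (rh d m θ) with hF
  have hF0 : F 0 = 0 := by
    simp only [hF]
    rw [h0, Real.log_one]
    ring
  have hneg : 1 + α * (-dr d m) < 0 := by linarith
  have h4 := (hasDerivAt_iff_isLittleO.1 h1).def
    (show 0 < -(1 + α * (-dr d m)) / 2 by linarith)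
  have h5 : ∀ᶠ x in 𝓝[>] (0 : ℝ), ‖F x - F 0 - (x - 0) • (1 + α * (-dr d m))‖ ≤
      -(1 + α * (-dr d m)) / 2 * ‖x - 0‖ := h4.filter_mono nhdsWithin_le_nhds
  obtain ⟨x, hx1, hx2⟩ := (h5.and self_mem_nhdsWithin).exists
  have hx : (0 : ℝ) < x := hx2
  rw [hF0, sub_zero, sub_zero, smul_eq_mul, Real.norm_eq_abs, Real.norm_eq_abs, abs_of_pos hx] at hx1
  have h6 := (abs_le.1 hx1).2
  have h7 : F x < 0 := by
    have h8 : x * (1 + α * (-dr d m)) < 0 := mul_neg_of_pos_of_neg hx hneg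
    nlinarith
  have h9 : x + α * Real.log (rh d m x) < 0 := h7
  refine ⟨x, hx, ?_, h9⟩
  have h10 : Real.log (rh d m x) < 0 := by
    by_contra hc
    have := mul_nonneg hα.le (not_lt.1 hc)
    linarith
  exact (Real.log_neg_iff (rh_pos hR x)).1 h10

theorem avg_one {F : ℤ → ℝ} {α c C₁ C₂ E δ : ℝ} (hα : 0 < α) (hc : 0 < c)
    (hC₁ : 0 ≤ C₁) (hE1 : E < 1) (hδ : 0 < δ)
    (h1 : ∀ X : ℝ, 1 ≤ X → {x : ℤ | |(x : ℝ)| ≤ X ∧ α * Real.log (2 + |(x : ℝ)|) + C₁ < F x}.Finite ∧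
      ({x : ℤ | |(x : ℝ)| ≤ X ∧ α * Real.log (2 + |(x : ℝ)|) + C₁ < F x}.ncard : ℝ) ≤ C₁ * X ^ E)
    (h2 : ∀ x : ℤ, F x ≤ c * Real.log (2 + |(x : ℝ)|) + C₂) :
    ∃ N : ℕ, ∀ X : ℕ, N ≤ X → ∀ A : Finset ℤ, A ⊆ Icc (-(X : ℤ)) X →
      ∑ x ∈ A, F x ≤ (α * A.card + δ * X) * Real.log X := by
  classical
  set K : ℝ := C₁ * (3 * c + |C₂|) with hK
  have hK0 : 0 ≤ K := by positivity
  have e1 : ∀ᶠ X : ℝ in atTop, Real.log X ≤ X ^ (1 - E) := by
    have h3 := (isLittleO_log_rpow_atTop (show 0 < 1 - E by linarith)).def (show (0 : ℝ) < 1 by norm_num)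
    filter_upwards [h3, eventually_ge_atTop (1 : ℝ)] with X h4 h5
    rw [one_mul, Real.norm_eq_abs, Real.norm_eq_abs, abs_of_nonneg (Real.log_nonneg h5),
      abs_of_nonneg (by positivity)] at h4
    exact h4
  have e2 : ∀ᶠ X : ℝ in atTop, (3 * (2 * α + C₁) + K) / δ ≤ Real.log X :=
    Real.tendsto_log_atTop.eventually_ge_atTop _
  have e3 := (tendsto_natCast_atTop_atTop (R := ℝ)).eventually
    (e1.and (e2.and (eventually_ge_atTop (3 : ℝ))))
  obtain ⟨N, hN⟩ := eventually_atTop.1 e3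
  refine ⟨N, fun X hX A hA => ?_⟩
  obtain ⟨a1, a2, a3⟩ := hN X hX
  have hX0 : (0 : ℝ) < X := by linarith
  obtain ⟨hf, hcard⟩ := h1 X (by linarith)
  set S : Finset ℤ := hf.toFinset with hS
  have hScard : (S.card : ℝ) ≤ C₁ * (X : ℝ) ^ E := by
    rw [hS, ← Set.ncard_eq_toFinset_card _ hf]
    exact hcard
  have hlog2 : Real.log (2 + X) ≤ Real.log X + 2 := by
    have h5 : (2 : ℝ) + X = X * (1 + 2 / X) := by field_simp; ring
    rw [h5, Real.log_mul hX0.ne' (by positivity)]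
    have h6 := Real.log_le_sub_one_of_pos (show 0 < 1 + 2 / (X : ℝ) by positivity)
    have h7 : 2 / (X : ℝ) ≤ 2 := by
      rw [div_le_iff₀ hX0]
      linarith
    linarith
  have hlog1 : 1 ≤ Real.log X := by
    rw [Real.le_log_iff_exp_le hX0]
    linarith [Real.exp_one_lt_d9]
  have hpt : ∀ x ∈ A, F x ≤ (α * (Real.log X + 2) + C₁) +
      (if x ∈ S then c * (Real.log X + 2) + |C₂| else 0) := by
    intro x hxA
    have hx := hA hxA
    rw [mem_Icc] at hx
    have hxX : |(x : ℝ)| ≤ X := by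
      rw [abs_le]
      exact ⟨by exact_mod_cast hx.1, by exact_mod_cast hx.2⟩
    have h8 : Real.log (2 + |(x : ℝ)|) ≤ Real.log X + 2 :=
      (Real.log_le_log (by positivity) (by linarith)).trans hlog2
    split_ifs with h9
    · have h10 := h2 x
      have h11 : c * Real.log (2 + |(x : ℝ)|) ≤ c * (Real.log X + 2) :=
        mul_le_mul_of_nonneg_left h8 hc.le
      have h12 : 0 ≤ α * (Real.log X + 2) := by positivity
      have h13 := le_abs_self C₂
      linarith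
    · have h14 : ¬ (α * Real.log (2 + |(x : ℝ)|) + C₁ < F x) := by
        intro h15
        exact h9 ((hf.mem_toFinset).2 ⟨hxX, h15⟩)
      have h16 : α * Real.log (2 + |(x : ℝ)|) ≤ α * (Real.log X + 2) :=
        mul_le_mul_of_nonneg_left h8 hα.le
      linarith [not_lt.1 h14]
  have hsum := sum_le_sum hpt
  rw [sum_add_distrib, sum_const, nsmul_eq_mul] at hsum
  have hAc : (A.card : ℝ) ≤ 3 * X := by
    have h3 := card_le_card hA
    rw [Int.card_Icc] at h3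
    have h4 : ((X : ℤ) + 1 - -(X : ℤ)).toNat = 2 * X + 1 := by omega
    rw [h4] at h3
    have h5 : (A.card : ℝ) ≤ 2 * X + 1 := by exact_mod_cast h3
    linarith
  have hsec : ∑ x ∈ A, (if x ∈ S then c * (Real.log X + 2) + |C₂| else 0) ≤ K * X := by
    have hb : 0 ≤ c * (Real.log X + 2) + |C₂| := by positivity
    rw [← sum_filter, sum_const, nsmul_eq_mul]
    have h17 : ((A.filter (fun x => x ∈ S)).card : ℝ) ≤ C₁ * (X : ℝ) ^ E := by
      refine le_trans ?_ hScard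
      have : (A.filter (fun x => x ∈ S)).card ≤ S.card := by
        apply card_le_card
        intro x hx
        exact (mem_filter.1 hx).2
      exact_mod_cast this
    have h18 : (X : ℝ) ^ E * Real.log X ≤ X := by
      calc (X : ℝ) ^ E * Real.log X ≤ (X : ℝ) ^ E * (X : ℝ) ^ (1 - E) :=
            mul_le_mul_of_nonneg_left a1 (by positivity)
        _ = X := by
            rw [← Real.rpow_add hX0]
            have : E + (1 - E) = 1 := by ring
            rw [this, Real.rpow_one]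
    have h19 : c * (Real.log X + 2) + |C₂| ≤ (3 * c + |C₂|) * Real.log X := by
      have h20 : |C₂| * 1 ≤ |C₂| * Real.log X := mul_le_mul_of_nonneg_left hlog1 (abs_nonneg _)
      nlinarith
    calc ((A.filter (fun x => x ∈ S)).card : ℝ) * (c * (Real.log X + 2) + |C₂|)
        ≤ (C₁ * (X : ℝ) ^ E) * ((3 * c + |C₂|) * Real.log X) :=
          mul_le_mul h17 h19 hb (by positivity)
      _ = K * ((X : ℝ) ^ E * Real.log X) := by rw [hK]; ring
      _ ≤ K * X := mul_le_mul_of_nonneg_left h18 hK0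
  have h21 : 3 * (2 * α + C₁) + K ≤ δ * Real.log X := by
    rw [div_le_iff₀ hδ] at a2
    linarith
  have h22 : (A.card : ℝ) * (2 * α + C₁) ≤ 3 * X * (2 * α + C₁) :=
    mul_le_mul_of_nonneg_right hAc (by positivity)
  have h23 : (X : ℝ) * (3 * (2 * α + C₁) + K) ≤ X * (δ * Real.log X) :=
    mul_le_mul_of_nonneg_left h21 hX0.le
  nlinarith

theorem avg {d : ℕ} {m r : ℤ → ℤ} (hR : GenC d m r) (B : ℕ) (μ : Measure ℤ) [IsProbabilityMeasure μ]
    (hB : μ {u : ℤ | (B : ℤ) < |u|} = 0)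
    (hE : ∀ j : ℤ, 0 ≤ j → j < d → μ {u : ℤ | u % (d : ℤ) = j} = (d : ℝ≥0∞)⁻¹)
    (hdr : 0 < dr d m) :
    ∀ᵐ ω ∂(Measure.infinitePi fun _ : ℤ => μ),
      (∀ x : ℤ, (Set.range fun i : ℕ => (stp d m r ω)^[i] x).Finite) ∧
      ∀ ε : ℝ, 0 < ε → ∃ N : ℕ, ∀ X : ℕ, N ≤ X → ∀ A : Finset ℤ, A ⊆ Icc (-(X : ℤ)) X →
        ∑ x ∈ A, ((Set.range fun i : ℕ => (stp d m r ω)^[i] x).ncard : ℝ) ≤
          (1 / dr d m * A.card + ε * X) * Real.log X := by
  have hall : ∀ᵐ ω ∂(Measure.infinitePi fun _ : ℤ => μ), ∀ n : ℕ,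
      (∀ x : ℤ, (Set.range fun i : ℕ => (stp d m r ω)^[i] x).Finite) ∧
      ∃ N : ℕ, ∀ X : ℕ, N ≤ X → ∀ A : Finset ℤ, A ⊆ Icc (-(X : ℤ)) X →
        ∑ x ∈ A, ((Set.range fun i : ℕ => (stp d m r ω)^[i] x).ncard : ℝ) ≤
          ((1 / dr d m + 1 / (4 * ((n : ℝ) + 1))) * A.card + 1 / (4 * ((n : ℝ) + 1)) * X) *
            Real.log X := by
    rw [ae_all_iff]
    intro n
    have hn : 0 < 1 / (4 * ((n : ℝ) + 1)) := by positivity
    have hα : 0 < 1 / dr d m + 1 / (4 * ((n : ℝ) + 1)) := by positivity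
    obtain ⟨θ, hθ, hρ, hlt⟩ := small hR hα (by
      rw [add_mul, one_div_mul_cancel hdr.ne']
      have := mul_pos hn hdr
      linarith)
    set α : ℝ := 1 / dr d m + 1 / (4 * ((n : ℝ) + 1)) with hαd
    set Φ : ℝ := θ + α * Real.log (rh d m θ) with hΦ
    have hr0 := rh_pos hR θ
    have hκ0 : 0 < -Real.log (rh d m θ) := by
      have := Real.log_neg hr0 hρ
      linarith
    have hl := ld hR B μ hB hE hθ hρ hα (le_max_left 0 (1 + Φ / 2)) (by
      have : 1 + Φ / 2 ≤ max 0 (1 + Φ / 2) := le_max_right _ _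
      have h3 : 1 + θ + α * Real.log (rh d m θ) = 1 + Φ := by rw [hΦ]; ring
      rw [h3]
      linarith)
    have hg := gen hR B μ hB hE hθ hρ (c := (2 + θ) / (-Real.log (rh d m θ))) (by
      rw [div_mul_cancel₀ _ hκ0.ne']
      linarith)
    filter_upwards [hl, hg] with ω h1 h2
    obtain ⟨C₁, hC₁, h3⟩ := h1
    obtain ⟨C₂, h4⟩ := h2
    refine ⟨fun x => (h4 x).1, ?_⟩
    exact avg_one (F := fun x : ℤ => ((Set.range fun i : ℕ => (stp d m r ω)^[i] x).ncard : ℝ)) hα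
      (by positivity) hC₁ (max_lt one_pos (by linarith)) hn h3 (fun x => (h4 x).2)
  filter_upwards [hall] with ω hω
  refine ⟨(hω 0).1, fun ε hε => ?_⟩
  obtain ⟨n, hn⟩ := exists_nat_one_div_lt hε
  obtain ⟨N, hN⟩ := (hω n).2
  refine ⟨max N 1, fun X hX A hA => (hN X ((le_max_left _ _).trans hX) A hA).trans ?_⟩
  have hX1 : (1 : ℝ) ≤ X := by exact_mod_cast (le_max_right N 1).trans hX
  have hAc : (A.card : ℝ) ≤ 3 * X := by
    have h3 := card_le_card hA
    rw [Int.card_Icc] at h3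
    have h4 : ((X : ℤ) + 1 - -(X : ℤ)).toNat = 2 * X + 1 := by omega
    rw [h4] at h3
    have h5 : (A.card : ℝ) ≤ 2 * X + 1 := by exact_mod_cast h3
    linarith
  apply mul_le_mul_of_nonneg_right _ (Real.log_nonneg hX1)
  have hq : 0 < 1 / (4 * ((n : ℝ) + 1)) := by positivity
  have h6 : 4 * (1 / (4 * ((n : ℝ) + 1))) = 1 / ((n : ℝ) + 1) := by
    have : (n : ℝ) + 1 ≠ 0 := by positivity
    field_simp
  have h7 : 1 / (4 * ((n : ℝ) + 1)) * (A.card : ℝ) ≤ 1 / (4 * ((n : ℝ) + 1)) * (3 * X) :=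
    mul_le_mul_of_nonneg_left hAc hq.le
  have h8 : (1 / ((n : ℝ) + 1)) * X ≤ ε * X := mul_le_mul_of_nonneg_right hn.le (by linarith)
  nlinarith

end Pool.Agent.U165.SC
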