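import Pool.Agent.U762.RP.Fin
import Pool.Agent.U511.RP.PRB
import Pool.Agent.U898.RP.DET

set_option autoImplicit false

/-!
# Generalized Collatz maps which need not be of relatively prime type

The bounds of `Pool/Agent/U97/RP/WC.lean` (helper97), which do not use the coprimality.
-/

namespace Pool.Agent.U165.SC

open Finset Pool.Agent.U762.RP

/-- a generalized Collatz map with positive multipliers -/
structure GenC (d : ℕ) (m r : ℤ → ℤ) : Prop where
  two_le : 2 ≤ d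
  pos : ∀ j : ℤ, 0 ≤ j → j < d → 0 < m j
  dvd : ∀ j : ℤ, 0 ≤ j → j < d → (d : ℤ) ∣ m j * j - r j

theorem fac_pos {d : ℕ} {m r : ℤ → ℤ} (h : GenC d m r) {η : ℝ} (hη : 0 < η) {j : ℕ}
    (hj : j ∈ range d) : 0 < fac d m η j := by
  have hd : (0 : ℝ) < d := by
    have := h.two_le
    exact_mod_cast (by omega : 0 < d)
  have hj' := mem_range.1 hj
  have h1 : 0 < m (j : ℤ) := h.pos j (by omega) (by exact_mod_cast hj')
  have h2 : (0 : ℝ) < m (j : ℤ) := by exact_mod_cast h1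
  unfold fac
  positivity

theorem T_mul {d : ℕ} {m r : ℤ → ℤ} (h : GenC d m r) (x : ℤ) :
    T d m r x * d = m (x % d) * x - r (x % d) := by
  have hd : (0 : ℤ) < d := by
    have := h.two_le
    exact_mod_cast (by omega : 0 < d)
  unfold T
  apply Int.ediv_mul_cancel
  have h1 := h.dvd (x % d) (Int.emod_nonneg _ hd.ne') (Int.emod_lt_of_pos _ hd)
  have h2 : (d : ℤ) ∣ x - x % d := Int.dvd_self_sub_emod
  have h3 : m (x % d) * x - r (x % d) =
      m (x % d) * (x - x % d) + (m (x % d) * (x % d) - r (x % d)) := by ring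
  rw [h3]
  exact dvd_add (Dvd.dvd.mul_left h2 _) h1

theorem T_bound {d : ℕ} {m r : ℤ → ℤ} (h : GenC d m r) {η M : ℝ} (hη : 0 < η) {B : ℕ}
    (hM : (∑ j ∈ range d, |(r (j : ℤ) : ℝ)|) + d * B ≤ M * η) (x : ℤ) (hx : M ≤ |(x : ℝ)|)
    (u : ℤ) (hu : |u| ≤ (B : ℤ)) :
    |((T d m r x + u : ℤ) : ℝ)| ≤ fac d m η (x % d).toNat * |(x : ℝ)| := by
  have hd0 : (0 : ℤ) < d := by
    have := h.two_le
    exact_mod_cast (by omega : 0 < d)
  have hd : (0 : ℝ) < d := by exact_mod_cast hd0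
  have hj0 : 0 ≤ x % d := Int.emod_nonneg _ hd0.ne'
  have hj1 : x % d < d := Int.emod_lt_of_pos _ hd0
  have hjn : (((x % d).toNat : ℕ) : ℤ) = x % d := Int.toNat_of_nonneg hj0
  have hjr : (x % d).toNat ∈ range d := by
    rw [mem_range]
    have : (((x % d).toNat : ℕ) : ℤ) < d := by rw [hjn]; exact hj1
    exact_mod_cast this
  have hm : 1 ≤ m (x % d) := h.pos _ hj0 hj1
  have hmR : (1 : ℝ) ≤ m (x % d) := by exact_mod_cast hm
  have hTx : ((T d m r x : ℤ) : ℝ) * d = m (x % d) * x - r (x % d) := by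
    exact_mod_cast T_mul h x
  have hr : |(r (x % d) : ℝ)| ≤ ∑ j ∈ range d, |(r (j : ℤ) : ℝ)| := by
    have := single_le_sum (f := fun j : ℕ => |(r (j : ℤ) : ℝ)|) (fun i _ => abs_nonneg _) hjr
    rw [hjn] at this
    exact this
  have huR : |(u : ℝ)| ≤ B := by exact_mod_cast hu
  refine le_of_mul_le_mul_right ?_ hd
  have e1 : |((T d m r x + u : ℤ) : ℝ)| * d = |(m (x % d) : ℝ) * x - r (x % d) + u * d| := by
    rw [← abs_of_pos hd, ← abs_mul, abs_of_pos hd, ← hTx]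
    push_cast
    ring_nf
  have e2 : |(m (x % d) : ℝ) * x - r (x % d) + u * d| ≤
      (m (x % d) : ℝ) * |(x : ℝ)| + |(r (x % d) : ℝ)| + |(u : ℝ)| * d := by
    have h1 := abs_add_le ((m (x % d) : ℝ) * x - r (x % d)) (u * d)
    have h2 := abs_sub ((m (x % d) : ℝ) * x) (r (x % d) : ℝ)
    rw [abs_mul, abs_of_pos (by linarith : (0 : ℝ) < m (x % d))] at h2
    rw [abs_mul (u : ℝ), abs_of_pos hd] at h1
    linarith
  have e3 : fac d m η (x % d).toNat * |(x : ℝ)| * d = (m (x % d) : ℝ) * (1 + η) * |(x : ℝ)| := by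
    unfold fac
    rw [hjn]
    field_simp
  rw [e1, e3]
  refine e2.trans ?_
  have h5 : |(u : ℝ)| * d ≤ d * B := by nlinarith
  have h6 : M * η ≤ (m (x % d) : ℝ) * η * |(x : ℝ)| := by
    have h7 : M * η ≤ |(x : ℝ)| * η := mul_le_mul_of_nonneg_right hx hη.le
    have h8 : 0 ≤ |(x : ℝ)| * η := mul_nonneg (abs_nonneg _) hη.le
    nlinarith
  nlinarith


end Pool.Agent.U165.SC
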