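import Pool.Agent.U165.SC.Base

set_option autoImplicit false

/-!
# Sharp constants for random perturbations with equidistributed residues

If the residues modulo `d` of the perturbations are equidistributed, then `(a_(x mod d) |x|) ^ θ` is,
up to small errors, an eigenfunction of the annealed chain, with the eigenvalue `ρ = (∑ a_j ^ θ) / d`.
-/

namespace Pool.Agent.U165.SC

open Finset MeasureTheory Filter Pool.Agent.U762.RP

/-- the residues modulo `d` are equidistributed -/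
def Equi (d : ℕ) (w : ℤ → ℝ) (B : ℕ) : Prop :=
  ∀ j : ℤ, 0 ≤ j → j < d → ∑ u ∈ (Icc (-(B : ℤ)) B).filter (fun u => u % (d : ℤ) = j), w u = 1 / d

theorem sumres {d : ℕ} (hd : 0 < d) {w : ℤ → ℝ} {B : ℕ} (h : Equi d w B) (G : ℕ → ℝ) (y : ℤ) :
    ∑ u ∈ Icc (-(B : ℤ)) B, w u * G ((y + u) % (d : ℤ)).toNat = (∑ j ∈ range d, G j) / d := by
  classical
  have hd0 : (0 : ℤ) < d := by exact_mod_cast hd
  have hmap : ∀ u ∈ Icc (-(B : ℤ)) B, ((y + u) % (d : ℤ)).toNat ∈ range d := by
    intro u _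
    rw [mem_range]
    have h1 := Int.emod_nonneg (y + u) hd0.ne'
    have h2 := Int.emod_lt_of_pos (y + u) hd0
    omega
  rw [← sum_fiberwise_of_maps_to hmap, sum_div]
  apply sum_congr rfl
  intro j hj
  rw [mem_range] at hj
  have h1 : ∑ u ∈ (Icc (-(B : ℤ)) B).filter (fun u => ((y + u) % (d : ℤ)).toNat = j),
      w u * G ((y + u) % (d : ℤ)).toNat =
      G j * ∑ u ∈ (Icc (-(B : ℤ)) B).filter (fun u => ((y + u) % (d : ℤ)).toNat = j), w u := by
    rw [mul_sum]
    apply sum_congr rfl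
    intro u hu
    rw [(mem_filter.1 hu).2, mul_comm]
  have h2 : (Icc (-(B : ℤ)) B).filter (fun u => ((y + u) % (d : ℤ)).toNat = j) =
      (Icc (-(B : ℤ)) B).filter (fun u => u % (d : ℤ) = ((j : ℤ) - y) % (d : ℤ)) := by
    apply filter_congr
    intro u _
    have h3 := Int.emod_nonneg (y + u) hd0.ne'
    have h4 : ((y + u) % (d : ℤ)).toNat = j ↔ (y + u) % (d : ℤ) = (j : ℤ) % (d : ℤ) := by
      rw [Int.emod_eq_of_lt (by positivity : (0 : ℤ) ≤ j) (by exact_mod_cast hj)]
      omega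
    rw [h4]
    constructor
    · intro h5
      have h6 : (y + u) ≡ (j : ℤ) [ZMOD d] := h5
      have h7 := h6.sub_right y
      rw [add_sub_cancel_left] at h7
      exact h7
    · intro h5
      have h6 : u ≡ (j : ℤ) - y [ZMOD d] := h5
      have h7 := h6.add_left y
      rw [add_sub_cancel] at h7
      exact h7
  rw [h1, h2, h _ (Int.emod_nonneg _ hd0.ne') (Int.emod_lt_of_pos _ hd0), mul_one_div]

/-- the potential -/
noncomputable def U (d : ℕ) (m : ℤ → ℤ) (η M θ : ℝ) (x : ℤ) : ℝ :=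
  if |(x : ℝ)| < M then 0 else (fac d m η (x % (d : ℤ)).toNat * |(x : ℝ)|) ^ θ

/-- the eigenvalue -/
noncomputable def rho (d : ℕ) (m : ℤ → ℤ) (η θ : ℝ) : ℝ := (∑ j ∈ range d, fac d m η j ^ θ) / d

theorem res_mem {d : ℕ} (hd : 0 < d) (x : ℤ) : (x % (d : ℤ)).toNat ∈ range d := by
  have hd0 : (0 : ℤ) < d := by exact_mod_cast hd
  rw [mem_range]
  have h1 := Int.emod_nonneg x hd0.ne'
  have h2 := Int.emod_lt_of_pos x hd0
  omega

theorem step {d : ℕ} {m r : ℤ → ℤ} (hR : GenC d m r) {η M θ : ℝ} (hη : 0 < η) (hθ : 0 < θ) {B : ℕ}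
    (hM : (∑ j ∈ range d, |(r (j : ℤ) : ℝ)|) + d * B ≤ M * η) {w : ℤ → ℝ} (hw : ∀ u, 0 ≤ w u)
    (he : Equi d w B) (x : ℤ) : Q d m r w B M (U d m η M θ) x ≤ rho d m η θ * U d m η M θ x := by
  have hd : 0 < d := by
    have := hR.two_le
    omega
  unfold Q
  by_cases hx : |(x : ℝ)| < M
  · rw [if_pos hx]
    unfold U
    rw [if_pos hx, mul_zero]
  · rw [if_neg hx]
    have hx' : M ≤ |(x : ℝ)| := not_lt.1 hx
    have hf : ∀ y : ℤ, 0 < fac d m η (y % (d : ℤ)).toNat := fun y =>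
      fac_pos hR hη (res_mem hd y)
    have h1 : ∀ u ∈ Icc (-(B : ℤ)) B, w u * U d m η M θ (T d m r x + u) ≤
        (fac d m η (x % (d : ℤ)).toNat * |(x : ℝ)|) ^ θ *
          (w u * fac d m η ((T d m r x + u) % (d : ℤ)).toNat ^ θ) := by
      intro u hu
      rw [mem_Icc] at hu
      have hb := T_bound hR hη hM x hx' u (abs_le.2 hu)
      have h2 : U d m η M θ (T d m r x + u) ≤
          (fac d m η ((T d m r x + u) % (d : ℤ)).toNat *
            (fac d m η (x % (d : ℤ)).toNat * |(x : ℝ)|)) ^ θ := by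
        unfold U
        have h0 := hf (T d m r x + u)
        have h0' := hf x
        split_ifs with h3
        · positivity
        · apply Real.rpow_le_rpow (by positivity) _ hθ.le
          exact mul_le_mul_of_nonneg_left hb h0.le
      have h0 := hf (T d m r x + u)
      have h0' := hf x
      rw [Real.mul_rpow h0.le (by positivity)] at h2
      calc w u * U d m η M θ (T d m r x + u)
          ≤ w u * (fac d m η ((T d m r x + u) % (d : ℤ)).toNat ^ θ *
            (fac d m η (x % (d : ℤ)).toNat * |(x : ℝ)|) ^ θ) := mul_le_mul_of_nonneg_left h2 (hw u)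
        _ = _ := by ring
    refine (sum_le_sum h1).trans ?_
    rw [← mul_sum, sumres hd he (fun j => fac d m η j ^ θ)]
    unfold U rho
    rw [if_neg hx, mul_comm]

theorem Q_mono {d : ℕ} {m r : ℤ → ℤ} {w : ℤ → ℝ} (hw : ∀ u, 0 ≤ w u) (B : ℕ) (M : ℝ) {F G : ℤ → ℝ}
    (h : ∀ x, F x ≤ G x) (x : ℤ) : Q d m r w B M F x ≤ Q d m r w B M G x := by
  unfold Q
  split_ifs
  · exact le_rfl
  · exact sum_le_sum fun u _ => mul_le_mul_of_nonneg_left (h _) (hw u)

theorem Q_smul {d : ℕ} {m r : ℤ → ℤ} {w : ℤ → ℝ} (B : ℕ) (M a : ℝ) (F : ℤ → ℝ) (x : ℤ) :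
    Q d m r w B M (fun y => a * F y) x = a * Q d m r w B M F x := by
  unfold Q
  split_ifs
  · rw [mul_zero]
  · rw [mul_sum]
    apply sum_congr rfl
    intro u _
    ring

theorem rho_nonneg {d : ℕ} {m r : ℤ → ℤ} (hR : GenC d m r) {η θ : ℝ} (hη : 0 < η) :
    0 ≤ rho d m η θ := by
  unfold rho
  apply div_nonneg _ (by positivity)
  apply sum_nonneg
  intro j hj
  have := fac_pos hR hη hj
  positivity

theorem iter {d : ℕ} {m r : ℤ → ℤ} (hR : GenC d m r) {η M θ : ℝ} (hη : 0 < η) (hθ : 0 < θ) {B : ℕ}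
    (hM : (∑ j ∈ range d, |(r (j : ℤ) : ℝ)|) + d * B ≤ M * η) (hMd : (d : ℝ) ≤ M)
    {w : ℤ → ℝ} (hw : ∀ u, 0 ≤ w u) (he : Equi d w B) (L : ℕ) : ∀ x : ℤ,
    (Q d m r w B M)^[L] (ind M) x ≤ rho d m η θ ^ L * U d m η M θ x := by
  have hd : 0 < d := by
    have := hR.two_le
    omega
  have hdR : (0 : ℝ) < d := by exact_mod_cast hd
  induction L with
  | zero =>
    intro x
    rw [Function.iterate_zero, id_eq, pow_zero, one_mul]
    unfold ind U
    split_ifs with h1
    · exact le_rfl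
    · apply Real.one_le_rpow _ hθ.le
      have h2 : M ≤ |(x : ℝ)| := not_lt.1 h1
      have h3 : (1 : ℝ) / d ≤ fac d m η (x % (d : ℤ)).toNat := by
        have hj := mem_range.1 (res_mem hd x)
        have h4 : 0 < m (((x % (d : ℤ)).toNat : ℕ) : ℤ) := hR.pos _ (by positivity) (by exact_mod_cast hj)
        have h5 : (1 : ℝ) ≤ m (((x % (d : ℤ)).toNat : ℕ) : ℤ) := by exact_mod_cast h4
        unfold fac
        rw [div_mul_eq_mul_div, div_le_div_iff_of_pos_right hdR]
        nlinarith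
      calc (1 : ℝ) = 1 / d * d := by field_simp
        _ ≤ fac d m η (x % (d : ℤ)).toNat * |(x : ℝ)| := by
            apply mul_le_mul h3 (hMd.trans h2) hdR.le
            exact le_trans (by positivity) h3
  | succ L ih =>
    intro x
    rw [Function.iterate_succ_apply']
    calc Q d m r w B M ((Q d m r w B M)^[L] (ind M)) x
        ≤ Q d m r w B M (fun y => rho d m η θ ^ L * U d m η M θ y) x := Q_mono hw B M ih x
      _ = rho d m η θ ^ L * Q d m r w B M (U d m η M θ) x := Q_smul B M _ _ x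
      _ ≤ rho d m η θ ^ L * (rho d m η θ * U d m η M θ x) :=
          mul_le_mul_of_nonneg_left (step hR hη hθ hM hw he x) (pow_nonneg (rho_nonneg hR hη) L)
      _ = _ := by ring

end Pool.Agent.U165.SC
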