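import Pool.Agent.U165.SC.Gen

set_option autoImplicit false

/-!
# The constant of the repeated random walk model
-/

namespace Pool.Agent.U165.SC

open Finset MeasureTheory Filter Pool.Agent.U762.RP
open scoped ENNReal

/-- `log (½ (2^θ + (2/3)^θ))` -/
noncomputable def lm (t : ℝ) : ℝ := Real.log ((1 / 2) * ((2 : ℝ) ^ t + (2 / 3 : ℝ) ^ t))

theorem rh_three (θ : ℝ) : rh 2 (mq 3) θ = (1 / 2) * ((2 : ℝ) ^ (-θ) + (2 / 3 : ℝ) ^ (-θ)) := by
  unfold rh mq
  rw [sum_range_succ, sum_range_one]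
  norm_num
  rw [Real.rpow_neg (by norm_num), Real.rpow_neg (by norm_num), ← Real.inv_rpow (by norm_num),
    ← Real.inv_rpow (by norm_num)]
  norm_num
  ring

theorem log_rh (θ : ℝ) : Real.log (rh 2 (mq 3) θ) = lm (-θ) := by
  rw [rh_three]
  rfl

theorem lm_ge (t : ℝ) : t / 2 * Real.log (4 / 3) ≤ lm t := by
  have h1 : (0 : ℝ) < 2 ^ (t / 2) := Real.rpow_pos_of_pos (by norm_num) _
  have h2 : (0 : ℝ) < (2 / 3 : ℝ) ^ (t / 2) := Real.rpow_pos_of_pos (by norm_num) _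
  have h3 : (2 : ℝ) ^ t = 2 ^ (t / 2) * 2 ^ (t / 2) := by
    rw [← Real.rpow_add (by norm_num)]
    congr 1
    ring
  have h4 : (2 / 3 : ℝ) ^ t = (2 / 3 : ℝ) ^ (t / 2) * (2 / 3 : ℝ) ^ (t / 2) := by
    rw [← Real.rpow_add (by norm_num)]
    congr 1
    ring
  have h5 : (4 / 3 : ℝ) ^ (t / 2) = 2 ^ (t / 2) * (2 / 3 : ℝ) ^ (t / 2) := by
    rw [← Real.mul_rpow (by norm_num) (by norm_num)]
    norm_num
  have h6 : (4 / 3 : ℝ) ^ (t / 2) ≤ (1 / 2) * ((2 : ℝ) ^ t + (2 / 3 : ℝ) ^ t) := by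
    rw [h3, h4, h5]
    nlinarith [sq_nonneg ((2 : ℝ) ^ (t / 2) - (2 / 3 : ℝ) ^ (t / 2))]
  unfold lm
  rw [← Real.log_rpow (by norm_num)]
  exact Real.log_le_log (by positivity) h6

theorem opt {γ c : ℝ} (h1 : ((1 / 2) * Real.log (4 / 3))⁻¹ < γ)
    (h2 : γ * (⨆ θ : ℝ, (θ * (1 / γ) - lm θ)) = 1) (hc : γ < c) :
    ∃ θ : ℝ, 0 < θ ∧ rh 2 (mq 3) θ < 1 ∧ 1 + θ < c * (-Real.log (rh 2 (mq 3) θ)) := by
  have hl : 0 < Real.log (4 / 3) := Real.log_pos (by norm_num)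
  have hγ : 0 < γ := lt_trans (by positivity) h1
  have h3 : 1 < γ * ((1 / 2) * Real.log (4 / 3)) := by
    rwa [inv_lt_iff_one_lt_mul₀ (by positivity)] at h1
  set κ : ℝ := min (1 / 2) ((c - γ) / (2 * γ)) with hκ
  have hκ0 : 0 < κ := by
    apply lt_min (by norm_num)
    apply div_pos <;> linarith
  have hκ1 : κ ≤ 1 / 2 := min_le_left _ _
  have hκ2 : κ ≤ (c - γ) / (2 * γ) := min_le_right _ _
  have h4 : (1 - κ) / γ < ⨆ θ : ℝ, (θ * (1 / γ) - lm θ) := by
    have h5 : (⨆ θ : ℝ, (θ * (1 / γ) - lm θ)) = 1 / γ := by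
      field_simp at h2 ⊢
      exact h2
    rw [h5]
    apply div_lt_div_of_pos_right _ hγ
    linarith
  obtain ⟨t, ht⟩ := exists_lt_of_lt_ciSup h4
  have h6 : 1 - κ < t - γ * lm t := by
    rw [div_lt_iff₀ hγ] at ht
    have : (t * (1 / γ) - lm t) * γ = t - γ * lm t := by
      field_simp
    linarith
  have ht0 : t < 0 := by
    by_contra h
    have h7 : 0 ≤ t := not_lt.1 h
    have h8 := lm_ge t
    have h9 : γ * (t / 2 * Real.log (4 / 3)) ≤ γ * lm t := mul_le_mul_of_nonneg_left h8 hγ.le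
    have h10 : γ * (t / 2 * Real.log (4 / 3)) = t * (γ * ((1 / 2) * Real.log (4 / 3))) := by ring
    have h11 : t * 1 ≤ t * (γ * ((1 / 2) * Real.log (4 / 3))) :=
      mul_le_mul_of_nonneg_left h3.le h7
    linarith
  have h12 : 1 / 2 < γ * (-lm t) := by linarith
  have h13 : 1 / (2 * γ) < -lm t := by
    rw [div_lt_iff₀ (by positivity)]
    linarith
  refine ⟨-t, by linarith, ?_, ?_⟩
  · have h14 : Real.log (rh 2 (mq 3) (-t)) < 0 := by
      rw [log_rh, neg_neg]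
      have : 0 < 1 / (2 * γ) := by positivity
      linarith
    have h15 : 0 < rh 2 (mq 3) (-t) := by
      rw [rh_three]
      positivity
    exact (Real.log_neg_iff h15).1 h14
  · rw [log_rh, neg_neg]
    have h16 : (c - γ) * (1 / (2 * γ)) ≤ (c - γ) * (-lm t) :=
      mul_le_mul_of_nonneg_left h13.le (by linarith)
    have h17 : (c - γ) * (1 / (2 * γ)) = (c - γ) / (2 * γ) := by ring
    rw [h17] at h16
    have h18 : (c - γ) * (1 / (2 * γ)) < (c - γ) * (-lm t) :=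
      mul_lt_mul_of_pos_left h13 (by linarith)
    rw [h17] at h18
    nlinarith

/-- from the bound with a constant to the bound for large numbers -/
theorem large {f : ℤ → ℤ} {c c' C : ℝ} (hc : 0 < c) (hcc : c < c')
    (h : ∀ x : ℤ, (Set.range fun i : ℕ => f^[i] x).Finite ∧
      ((Set.range fun i : ℕ => f^[i] x).ncard : ℝ) ≤ c * Real.log (2 + |(x : ℝ)|) + C) :
    ∃ N : ℕ, ∀ x : ℤ, (N : ℤ) ≤ |x| →
      ((Set.range fun i : ℕ => f^[i] x).ncard : ℝ) ≤ c' * Real.log |(x : ℝ)| ∧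
      ∃ k : ℕ, (k : ℝ) ≤ c' * Real.log |(x : ℝ)| ∧ f^[k] x ∈ Function.periodicPts f := by
  obtain ⟨N, hN⟩ := exists_nat_gt (max 2 (Real.exp ((c * Real.log 2 + C) / (c' - c))))
  refine ⟨N, fun x hx => ?_⟩
  have hxN : (N : ℝ) ≤ |(x : ℝ)| := by exact_mod_cast hx
  have hx2 : 2 ≤ |(x : ℝ)| := ((le_max_left _ _).trans hN.le).trans hxN
  have hx3 : Real.exp ((c * Real.log 2 + C) / (c' - c)) ≤ |(x : ℝ)| :=
    ((le_max_right _ _).trans hN.le).trans hxN
  have hx0 : 0 < |(x : ℝ)| := by linarith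
  have h1 : (c * Real.log 2 + C) / (c' - c) ≤ Real.log |(x : ℝ)| := by
    rw [Real.le_log_iff_exp_le hx0]
    exact hx3
  have h2 : c * Real.log 2 + C ≤ (c' - c) * Real.log |(x : ℝ)| := by
    rw [div_le_iff₀ (by linarith)] at h1
    linarith
  have h3 : Real.log (2 + |(x : ℝ)|) ≤ Real.log 2 + Real.log |(x : ℝ)| := by
    rw [← Real.log_mul (by norm_num) hx0.ne']
    apply Real.log_le_log (by linarith)
    linarith
  have h4 : ((Set.range fun i : ℕ => f^[i] x).ncard : ℝ) ≤ c' * Real.log |(x : ℝ)| := by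
    have h5 : c * Real.log (2 + |(x : ℝ)|) ≤ c * (Real.log 2 + Real.log |(x : ℝ)|) :=
      mul_le_mul_of_nonneg_left h3 hc.le
    have := (h x).2
    nlinarith
  refine ⟨h4, ?_⟩
  set n : ℕ := (Set.range fun i : ℕ => f^[i] x).ncard with hn
  have hfin := (h x).1
  -- two of the first `n + 1` terms agree
  have hninj : ¬ Set.InjOn (fun i : ℕ => f^[i] x) (Set.Iic n) := by
    intro hinj
    have h5 : ((fun i : ℕ => f^[i] x) '' Set.Iic n).ncard = n + 1 := by
      rw [Set.InjOn.ncard_image hinj, ← Finset.coe_Iic, Set.ncard_coe_finset, Nat.card_Iic]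
    have h6 : ((fun i : ℕ => f^[i] x) '' Set.Iic n).ncard ≤ n := by
      rw [hn]
      apply Set.ncard_le_ncard _ hfin
      rintro _ ⟨j, _, rfl⟩
      exact ⟨j, rfl⟩
    omega
  have hex : ∃ i j : ℕ, i < j ∧ j ≤ n ∧ f^[i] x = f^[j] x := by
    by_contra hcon
    push Not at hcon
    apply hninj
    intro a ha b hb hab
    rw [Set.mem_Iic] at ha hb
    rcases lt_trichotomy a b with h5 | h5 | h5
    · exact absurd hab (hcon a b h5 hb)
    · exact h5
    · exact absurd hab.symm (hcon b a h5 ha)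
  obtain ⟨i, j, hij, hjn, he⟩ := hex
  refine ⟨i, ?_, ?_⟩
  · refine le_trans ?_ h4
    have : i ≤ n := by omega
    exact_mod_cast this
  · refine ⟨j - i, by omega, ?_⟩
    show f^[j - i] (f^[i] x) = f^[i] x
    rw [← Function.iterate_add_apply, Nat.sub_add_cancel hij.le, ← he]

end Pool.Agent.U165.SC
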