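import Pool.Agent.U165.SC.Core

set_option autoImplicit false

/-!
# Sharp constants for random perturbations: the general upper bound
-/

namespace Pool.Agent.U165.SC

open Finset MeasureTheory Filter Pool.Agent.U762.RP
open scoped ENNReal

/-- the deterministic end game -/
theorem det {d : ℕ} {m r : ℤ → ℤ} (M c : ℝ) (hc : 0 < c) (ω : ℤ → ℤ)
    (hfin : {x : ℤ | Long d m r M ⌈c * Real.log (2 + |(x : ℝ)|)⌉₊ x ω}.Finite) :
    ∃ C : ℝ, ∀ x : ℤ, (Set.range fun i : ℕ => (stp d m r ω)^[i] x).Finite ∧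
      ((Set.range fun i : ℕ => (stp d m r ω)^[i] x).ncard : ℝ) ≤
        c * Real.log (2 + |(x : ℝ)|) + C := by
  set f : ℤ → ℤ := stp d m r ω with hf
  set L : ℤ → ℕ := fun x => ⌈c * Real.log (2 + |(x : ℝ)|)⌉₊ with hL
  set F : Set ℤ := {x : ℤ | Long d m r M (L x) x ω} ∪ {x : ℤ | |(x : ℝ)| < M} with hFdef
  have hF2 : {x : ℤ | |(x : ℝ)| < M}.Finite := by
    refine (Set.finite_Icc (-⌈M⌉) ⌈M⌉).subset ?_
    intro x hx
    have hx' : |(x : ℝ)| < M := hx
    rw [abs_lt] at hx'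
    constructor
    · have : ((-⌈M⌉ : ℤ) : ℝ) ≤ x := by
        push_cast
        have := Int.le_ceil M
        linarith [hx'.1]
      exact_mod_cast this
    · have : (x : ℝ) ≤ (⌈M⌉ : ℝ) := by
        have := Int.le_ceil M
        linarith [hx'.2]
      exact_mod_cast this
  have hF : F.Finite := hfin.union hF2
  have hstep : ∀ x, x ∉ F → (∃ i, i ≤ L x ∧ f^[i] x ∈ F) ∨
      ∃ i j : ℕ, i < j ∧ j ≤ L x ∧ f^[i] x = f^[j] x := by
    intro x hx
    have hx1 : ¬ Long d m r M (L x) x ω := fun h => hx (Or.inl h)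
    by_contra hcon
    push Not at hcon
    apply hx1
    refine ⟨?_, ?_⟩
    · intro i hi
      by_contra hlt
      exact hcon.1 i hi (Or.inr (not_le.mp hlt))
    · intro i j hij hj he
      exact hcon.2 i j hij hj he
  obtain ⟨D, hD⟩ := Pool.Agent.U898.RP.DET.orb_card f L F hF hstep
  refine ⟨1 + D, ?_⟩
  intro x
  have hfinx := Pool.Agent.U898.RP.DET.orb_finite f L F hF hstep x
  have hlog : 0 ≤ Real.log (2 + |(x : ℝ)|) := Real.log_nonneg (by linarith [abs_nonneg (x : ℝ)])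
  have hLx : (L x : ℝ) ≤ c * Real.log (2 + |(x : ℝ)|) + 1 := by
    have := Nat.ceil_lt_add_one (a := c * Real.log (2 + |(x : ℝ)|)) (by positivity)
    exact this.le
  refine ⟨hfinx, ?_⟩
  have h1 : ((Pool.Agent.U898.RP.DET.orb f x).ncard : ℝ) ≤ (L x : ℝ) + D := by exact_mod_cast hD x
  have h2 : ((Pool.Agent.U898.RP.DET.orb f x).ncard : ℝ) ≤
      c * Real.log (2 + |(x : ℝ)|) + (1 + D) := by linarith
  exact h2

theorem summ (C : ℝ) {s : ℝ} (hs : 1 < s) : Summable fun x : ℤ => C * (2 + |(x : ℝ)|) ^ (-s) := by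
  have h0 : Summable fun n : ℕ => ((n : ℝ)) ^ (-s) := Real.summable_nat_rpow.2 (by linarith)
  have h1 : Summable fun n : ℕ => (2 + (n : ℝ)) ^ (-s) := by
    have h2 := (summable_nat_add_iff 2).2 h0
    refine h2.congr fun n => ?_
    push_cast
    rw [add_comm]
  apply Summable.mul_left
  apply Summable.of_nat_of_neg
  · refine h1.congr fun n => ?_
    simp
  · refine h1.congr fun n => ?_
    simp

theorem decay {lam c : ℝ} (hl0 : 0 < lam) (hl1 : lam < 1) (y : ℝ) (hy : 2 ≤ y) :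
    lam ^ ⌈c * Real.log y⌉₊ ≤ y ^ (c * Real.log lam) := by
  have hy0 : 0 < y := by linarith
  have h1 : c * Real.log y ≤ ⌈c * Real.log y⌉₊ := Nat.le_ceil _
  calc lam ^ ⌈c * Real.log y⌉₊
      = lam ^ ((⌈c * Real.log y⌉₊ : ℕ) : ℝ) := (Real.rpow_natCast _ _).symm
    _ ≤ lam ^ (c * Real.log y) := Real.rpow_le_rpow_of_exponent_ge hl0 hl1.le h1
    _ = y ^ (c * Real.log lam) := by
        rw [Real.rpow_def_of_pos hl0, Real.rpow_def_of_pos hy0]
        congr 1
        ring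

theorem equi_real {d : ℕ} {B : ℕ} (μ : Measure ℤ) [IsProbabilityMeasure μ]
    (hB : μ {u : ℤ | (B : ℤ) < |u|} = 0)
    (hE : ∀ j : ℤ, 0 ≤ j → j < d → μ {u : ℤ | u % (d : ℤ) = j} = (d : ℝ≥0∞)⁻¹) :
    Equi d (fun u => μ.real {u}) B := by
  intro j h0 h1
  rw [sum_measureReal_singleton]
  have h2 : μ (((Icc (-(B : ℤ)) B).filter (fun u => u % (d : ℤ) = j) : Finset ℤ) : Set ℤ) =
      (d : ℝ≥0∞)⁻¹ := by
    rw [← hE j h0 h1]
    apply le_antisymm
    · apply measure_mono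
      intro u hu
      rw [mem_coe, mem_filter] at hu
      exact hu.2
    · have h3 : {u : ℤ | u % (d : ℤ) = j} ⊆
          (((Icc (-(B : ℤ)) B).filter (fun u => u % (d : ℤ) = j) : Finset ℤ) : Set ℤ) ∪
            {u : ℤ | (B : ℤ) < |u|} := by
        intro u hu
        by_cases h4 : (B : ℤ) < |u|
        · exact Or.inr h4
        · left
          rw [mem_coe, mem_filter, mem_Icc]
          exact ⟨abs_le.1 (not_lt.1 h4), hu⟩
      refine (measure_mono h3).trans ((measure_union_le _ _).trans ?_)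
      rw [hB, add_zero]
  rw [Measure.real, h2, ENNReal.toReal_inv, ENNReal.toReal_natCast, one_div]

/-- the eigenvalue without errors -/
noncomputable def rh (d : ℕ) (m : ℤ → ℤ) (θ : ℝ) : ℝ :=
  (∑ j ∈ range d, ((m (j : ℤ) : ℝ) / d) ^ θ) / d

theorem rh_pos {d : ℕ} {m r : ℤ → ℤ} (hR : GenC d m r) (θ : ℝ) : 0 < rh d m θ := by
  have hd : 0 < d := by
    have := hR.two_le
    omega
  have hdR : (0 : ℝ) < d := by exact_mod_cast hd
  unfold rh
  apply div_pos _ hdR
  apply sum_pos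
  · intro j hj
    have h1 : 0 < m (j : ℤ) := hR.pos j (by positivity) (by exact_mod_cast mem_range.1 hj)
    have h2 : (0 : ℝ) < m (j : ℤ) := by exact_mod_cast h1
    positivity
  · exact ⟨0, mem_range.2 hd⟩

theorem rho_eq {d : ℕ} {m r : ℤ → ℤ} (hR : GenC d m r) {η : ℝ} (hη : 0 < η) (θ : ℝ) :
    rho d m η θ = rh d m θ * (1 + η) ^ θ := by
  have hd : 0 < d := by
    have := hR.two_le
    omega
  have hdR : (0 : ℝ) < d := by exact_mod_cast hd
  unfold rho rh fac
  rw [div_mul_eq_mul_div, sum_mul]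
  congr 1
  apply sum_congr rfl
  intro j hj
  have h1 : 0 < m (j : ℤ) := hR.pos j (by positivity) (by exact_mod_cast mem_range.1 hj)
  have h2 : (0 : ℝ) < m (j : ℤ) := by exact_mod_cast h1
  rw [Real.mul_rpow (by positivity) (by positivity)]

theorem U_le {d : ℕ} {m r : ℤ → ℤ} (hR : GenC d m r) {η M θ : ℝ} (hη : 0 < η) (hθ : 0 < θ) (x : ℤ) :
    U d m η M θ x ≤ (∑ j ∈ range d, fac d m η j) ^ θ * (2 + |(x : ℝ)|) ^ θ := by
  have hd : 0 < d := by
    have := hR.two_le
    omega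
  have h0 : ∀ j ∈ range d, 0 < fac d m η j := fun j hj => fac_pos hR hη hj
  have h1 : 0 ≤ ∑ j ∈ range d, fac d m η j := sum_nonneg fun j hj => (h0 j hj).le
  have h2 := single_le_sum (fun j hj => (h0 j hj).le) (res_mem hd x)
  have h3 := h0 _ (res_mem hd x)
  rw [← Real.mul_rpow h1 (by positivity)]
  unfold U
  split_ifs
  · positivity
  · apply Real.rpow_le_rpow (by positivity) _ hθ.le
    apply mul_le_mul h2 (by linarith [abs_nonneg (x : ℝ)]) (abs_nonneg _) h1

theorem gen {d : ℕ} {m r : ℤ → ℤ} (hR : GenC d m r) (B : ℕ) (μ : Measure ℤ) [IsProbabilityMeasure μ]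
    (hB : μ {u : ℤ | (B : ℤ) < |u|} = 0)
    (hE : ∀ j : ℤ, 0 ≤ j → j < d → μ {u : ℤ | u % (d : ℤ) = j} = (d : ℝ≥0∞)⁻¹)
    {θ c : ℝ} (hθ : 0 < θ) (hρ : rh d m θ < 1) (hc : 1 + θ < c * (-Real.log (rh d m θ))) :
    ∀ᵐ ω ∂(Measure.infinitePi fun _ : ℤ => μ), ∃ C : ℝ, ∀ x : ℤ,
      (Set.range fun i : ℕ => (stp d m r ω)^[i] x).Finite ∧
      ((Set.range fun i : ℕ => (stp d m r ω)^[i] x).ncard : ℝ) ≤
        c * Real.log (2 + |(x : ℝ)|) + C := by
  have hr0 := rh_pos hR θ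
  set κ : ℝ := -Real.log (rh d m θ) with hκ
  have hκ0 : 0 < κ := by
    have := Real.log_neg hr0 hρ
    linarith
  have hc0 : 0 < c := by
    by_contra h
    have : c * κ ≤ 0 := mul_nonpos_of_nonpos_of_nonneg (not_lt.1 h) hκ0.le
    linarith
  set δ : ℝ := c * κ - 1 - θ with hδ
  have hδ0 : 0 < δ := by rw [hδ]; linarith
  set η : ℝ := δ / (2 * (c * θ)) with hη
  have hη0 : 0 < η := by positivity
  have hlogη : Real.log (1 + η) ≤ η := by
    have := Real.log_le_sub_one_of_pos (show 0 < 1 + η by linarith)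
    linarith
  have hcη : c * θ * η = δ / 2 := by
    rw [hη]
    field_simp
  have hρ1 : 0 < rho d m η θ := by
    rw [rho_eq hR hη0]
    positivity
  have hlog : Real.log (rho d m η θ) = -κ + θ * Real.log (1 + η) := by
    rw [rho_eq hR hη0, Real.log_mul hr0.ne' (by positivity), Real.log_rpow (by linarith), hκ]
    ring
  have hs : 1 + δ / 2 ≤ -(θ + c * Real.log (rho d m η θ)) := by
    rw [hlog]
    have h1 : c * (θ * Real.log (1 + η)) ≤ c * (θ * η) := by
      apply mul_le_mul_of_nonneg_left _ hc0.le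
      exact mul_le_mul_of_nonneg_left hlogη hθ.le
    have h2 : c * (θ * η) = δ / 2 := by rw [← hcη]; ring
    have h3 : c * κ = δ + 1 + θ := by rw [hδ]; ring
    nlinarith
  have hρlt : rho d m η θ < 1 := by
    have h1 : c * Real.log (rho d m η θ) < 0 := by linarith
    have h2 : Real.log (rho d m η θ) < 0 := by
      by_contra h
      have : 0 ≤ c * Real.log (rho d m η θ) := mul_nonneg hc0.le (not_lt.1 h)
      linarith
    exact (Real.log_neg_iff hρ1).1 h2
  have hd : 0 < d := by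
    have := hR.two_le
    omega
  set M : ℝ := max (d : ℝ) (((∑ j ∈ range d, |(r (j : ℤ) : ℝ)|) + d * B) / η) with hM
  have hM1 : (d : ℝ) ≤ M := le_max_left _ _
  have hM2 : (∑ j ∈ range d, |(r (j : ℤ) : ℝ)|) + d * B ≤ M * η := by
    have := le_max_right (d : ℝ) (((∑ j ∈ range d, |(r (j : ℤ) : ℝ)|) + d * B) / η)
    rwa [div_le_iff₀ hη0] at this
  set P : Measure (ℤ → ℤ) := Measure.infinitePi fun _ : ℤ => μ with hPdef
  set R : ℝ := (∑ j ∈ range d, fac d m η j) ^ θ with hRdef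
  have hR0 : 0 ≤ R := by
    rw [hRdef]
    apply Real.rpow_nonneg
    exact sum_nonneg fun j hj => (fac_pos hR hη0 hj).le
  have hbc : ∀ᵐ ω ∂P, {x : ℤ | ω ∈ {ω : ℤ → ℤ | Long d m r M
      ⌈c * Real.log (2 + |(x : ℝ)|)⌉₊ x ω}}.Finite := by
    apply ae_finite_setOfPred_mem
    have hle : ∀ x : ℤ, P {ω : ℤ → ℤ | Long d m r M ⌈c * Real.log (2 + |(x : ℝ)|)⌉₊ x ω} ≤
        ENNReal.ofReal (R * (2 + |(x : ℝ)|) ^ (-(-(θ + c * Real.log (rho d m η θ))))) := by
      intro x
      refine (Pool.Agent.U511.RP.t_PRB d m r μ B hB M _ x).trans (ENNReal.ofReal_le_ofReal ?_)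
      refine (iter hR hη0 hθ hM2 hM1 (fun u => measureReal_nonneg) (equi_real μ hB hE) _ x).trans ?_
      have hy : (2 : ℝ) ≤ 2 + |(x : ℝ)| := by linarith [abs_nonneg (x : ℝ)]
      have hy0 : 0 < 2 + |(x : ℝ)| := by linarith
      have h1 := decay (c := c) hρ1 hρlt _ hy
      have h2 := U_le hR hη0 hθ (M := M) x
      calc rho d m η θ ^ ⌈c * Real.log (2 + |(x : ℝ)|)⌉₊ * U d m η M θ x
          ≤ (2 + |(x : ℝ)|) ^ (c * Real.log (rho d m η θ)) * (R * (2 + |(x : ℝ)|) ^ θ) := by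
            apply mul_le_mul h1 h2 _ (by positivity)
            unfold U
            split_ifs
            · exact le_rfl
            · have := fac_pos hR hη0 (res_mem hd x)
              positivity
        _ = R * (2 + |(x : ℝ)|) ^ (-(-(θ + c * Real.log (rho d m η θ)))) := by
            rw [neg_neg, Real.rpow_add hy0]
            ring
    have hsm := summ R (show 1 < -(θ + c * Real.log (rho d m η θ)) by linarith)
    have h2 : ∑' x : ℤ, ENNReal.ofReal
        (R * (2 + |(x : ℝ)|) ^ (-(-(θ + c * Real.log (rho d m η θ))))) ≠ ⊤ := by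
      rw [← ENNReal.ofReal_tsum_of_nonneg (fun x => by positivity) hsm]
      exact ENNReal.ofReal_ne_top
    exact ne_top_of_le_ne_top h2 (ENNReal.tsum_le_tsum hle)
  filter_upwards [hbc] with ω h1
  exact det M c hc0 ω h1

end Pool.Agent.U165.SC
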