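import Pool.Agent.U165.SC.Gam

set_option autoImplicit false

/-!
# Large deviations: the number of long orbits
-/

namespace Pool.Agent.U165.SC

open Finset MeasureTheory Filter Pool.Agent.U762.RP
open scoped ENNReal

/-- an orbit which is not long is short -/
theorem short {d : ℕ} {m r : ℤ → ℤ} {M : ℝ} {L D : ℕ} {x : ℤ} {ω : ℤ → ℤ}
    (hD : ∀ y : ℤ, |(y : ℝ)| < M → (Set.range fun i : ℕ => (stp d m r ω)^[i] y).Finite ∧
      (Set.range fun i : ℕ => (stp d m r ω)^[i] y).ncard ≤ D)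
    (h : ¬ Long d m r M L x ω) : (Set.range fun i : ℕ => (stp d m r ω)^[i] x).ncard ≤ L + D := by
  set f : ℤ → ℤ := stp d m r ω with hf
  have hstep : (∃ i, i ≤ L ∧ |((f^[i] x : ℤ) : ℝ)| < M) ∨
      ∃ i j : ℕ, i < j ∧ j ≤ L ∧ f^[i] x = f^[j] x := by
    by_contra hcon
    push Not at hcon
    apply h
    exact ⟨fun i hi => hcon.1 i hi, fun i j hij hj he => hcon.2 i j hij hj he⟩
  rcases hstep with ⟨i, hi, hlt⟩ | ⟨i, j, hij, hj, he⟩
  · have h1 := hD _ hlt
    have h2 := Pool.Agent.U898.RP.DET.orb_card_le f x i h1.1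
    have h3 : (Set.range fun i : ℕ => f^[i] x).ncard ≤ i + D := h2.trans (Nat.add_le_add_left h1.2 i)
    omega
  · have h1 := (Pool.Agent.U898.RP.DET.orb_finite_of_eq f x i j hij he).2
    have h2 : (Set.range fun i : ℕ => f^[i] x).ncard ≤ j := h1
    omega

/-- weighted Borel-Cantelli -/
theorem wbc {Ω : Type*} [MeasurableSpace Ω] (P : Measure Ω) (s : ℤ → Set Ω) (w : ℤ → ℝ≥0∞)
    (h : ∑' x, w x * P (s x) ≠ ⊤) : ∀ᵐ ω ∂P, ∑' x, (s x).indicator (fun _ => w x) ω < ⊤ := by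
  have hm : ∀ x, MeasurableSet (toMeasurable P (s x)) := fun x => measurableSet_toMeasurable _ _
  have hmeas : Measurable fun ω => ∑' x, (toMeasurable P (s x)).indicator (fun _ => w x) ω :=
    Measurable.ennreal_tsum fun x => measurable_const.indicator (hm x)
  have hint : ∫⁻ ω, ∑' x, (toMeasurable P (s x)).indicator (fun _ => w x) ω ∂P ≠ ⊤ := by
    rw [lintegral_tsum fun x => (measurable_const.indicator (hm x)).aemeasurable]
    simp_rw [lintegral_indicator_const (hm _), measure_toMeasurable]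
    exact h
  filter_upwards [ae_lt_top hmeas hint] with ω hω
  refine lt_of_le_of_lt (ENNReal.tsum_le_tsum fun x => ?_) hω
  exact Set.indicator_le_indicator_of_subset (subset_toMeasurable P (s x)) (fun _ => bot_le) ω

/-- counting from weights -/
theorem count {s : ℤ → Prop} {E S : ℝ} (hE : 0 ≤ E) (hS : 0 ≤ S)
    (h : ∑' x : ℤ, ({y : ℤ | s y}).indicator (fun x : ℤ => ENNReal.ofReal ((2 + |(x : ℝ)|) ^ (-E))) x ≤
      ENNReal.ofReal S) (X : ℝ) (hX : 1 ≤ X) :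
    ({x : ℤ | |(x : ℝ)| ≤ X ∧ s x}.Finite) ∧
    ({x : ℤ | |(x : ℝ)| ≤ X ∧ s x}.ncard : ℝ) ≤ S * 3 ^ E * X ^ E := by
  have hfin : {x : ℤ | |(x : ℝ)| ≤ X ∧ s x}.Finite := by
    refine (Set.finite_Icc (-⌈X⌉) ⌈X⌉).subset ?_
    rintro x ⟨hx, -⟩
    rw [abs_le] at hx
    have h1 := Int.le_ceil X
    constructor
    · have : ((-⌈X⌉ : ℤ) : ℝ) ≤ x := by
        push_cast
        linarith [hx.1]
      exact_mod_cast this
    · have : (x : ℝ) ≤ (⌈X⌉ : ℝ) := by linarith [hx.2]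
      exact_mod_cast this
  refine ⟨hfin, ?_⟩
  have hX0 : (0 : ℝ) < 2 + X := by linarith
  have h1 : ∑ x ∈ hfin.toFinset, ENNReal.ofReal ((2 + X) ^ (-E)) ≤ ENNReal.ofReal S := by
    refine le_trans (le_trans (sum_le_sum ?_) (ENNReal.sum_le_tsum hfin.toFinset)) h
    intro x hx
    rw [hfin.mem_toFinset] at hx
    have hx1 : |(x : ℝ)| ≤ X := hx.1
    rw [Set.indicator_of_mem (show x ∈ {y : ℤ | s y} from hx.2)]
    apply ENNReal.ofReal_le_ofReal
    rw [Real.rpow_neg hX0.le, Real.rpow_neg (by positivity)]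
    apply inv_anti₀ (by positivity)
    exact Real.rpow_le_rpow (by positivity) (by linarith) hE
  rw [sum_const, nsmul_eq_mul, ← ENNReal.ofReal_natCast, ← ENNReal.ofReal_mul (by positivity),
    ENNReal.ofReal_le_ofReal_iff hS, Set.ncard_eq_toFinset_card _ hfin |>.symm] at h1
  rw [Real.rpow_neg hX0.le, ← div_eq_mul_inv, div_le_iff₀ (by positivity)] at h1
  refine h1.trans ?_
  rw [mul_assoc, ← Real.mul_rpow (by norm_num) (by linarith)]
  apply mul_le_mul_of_nonneg_left _ hS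
  exact Real.rpow_le_rpow hX0.le (by linarith) hE

theorem ld {d : ℕ} {m r : ℤ → ℤ} (hR : GenC d m r) (B : ℕ) (μ : Measure ℤ) [IsProbabilityMeasure μ]
    (hB : μ {u : ℤ | (B : ℤ) < |u|} = 0)
    (hE : ∀ j : ℤ, 0 ≤ j → j < d → μ {u : ℤ | u % (d : ℤ) = j} = (d : ℝ≥0∞)⁻¹)
    {θ α E : ℝ} (hθ : 0 < θ) (hρ : rh d m θ < 1) (hα : 0 < α) (hE0 : 0 ≤ E)
    (hE1 : 1 + θ + α * Real.log (rh d m θ) < E) :
    ∀ᵐ ω ∂(Measure.infinitePi fun _ : ℤ => μ), ∃ C : ℝ, 0 ≤ C ∧ ∀ X : ℝ, 1 ≤ X →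
      {x : ℤ | |(x : ℝ)| ≤ X ∧ α * Real.log (2 + |(x : ℝ)|) + C <
        ((Set.range fun i : ℕ => (stp d m r ω)^[i] x).ncard : ℝ)}.Finite ∧
      ({x : ℤ | |(x : ℝ)| ≤ X ∧ α * Real.log (2 + |(x : ℝ)|) + C <
        ((Set.range fun i : ℕ => (stp d m r ω)^[i] x).ncard : ℝ)}.ncard : ℝ) ≤ C * X ^ E := by
  have hr0 := rh_pos hR θ
  set κ : ℝ := -Real.log (rh d m θ) with hκ
  have hκ0 : 0 < κ := by
    have := Real.log_neg hr0 hρ
    linarith
  set ε : ℝ := E - (1 + θ + α * Real.log (rh d m θ)) with hε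
  have hε0 : 0 < ε := by rw [hε]; linarith
  set η : ℝ := min (ε / (2 * (α * θ))) (κ / (2 * θ)) with hη
  have hη0 : 0 < η := lt_min (by positivity) (by positivity)
  have hη1 : η ≤ ε / (2 * (α * θ)) := min_le_left _ _
  have hη2 : η ≤ κ / (2 * θ) := min_le_right _ _
  have hlogη : Real.log (1 + η) ≤ η := by
    have := Real.log_le_sub_one_of_pos (show 0 < 1 + η by linarith)
    linarith
  have hρ1 : 0 < rho d m η θ := by
    rw [rho_eq hR hη0]
    positivity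
  have hlog : Real.log (rho d m η θ) = Real.log (rh d m θ) + θ * Real.log (1 + η) := by
    rw [rho_eq hR hη0, Real.log_mul hr0.ne' (by positivity), Real.log_rpow (by linarith)]
  have h1 : α * (θ * Real.log (1 + η)) ≤ ε / 2 := by
    have h2 : θ * Real.log (1 + η) ≤ θ * (ε / (2 * (α * θ))) :=
      mul_le_mul_of_nonneg_left (hlogη.trans hη1) hθ.le
    have h3 : α * (θ * Real.log (1 + η)) ≤ α * (θ * (ε / (2 * (α * θ)))) :=
      mul_le_mul_of_nonneg_left h2 hα.le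
    have h4 : α * (θ * (ε / (2 * (α * θ)))) = ε / 2 := by
      field_simp
    linarith
  have hρlt : rho d m η θ < 1 := by
    have h2 : θ * Real.log (1 + η) ≤ θ * (κ / (2 * θ)) :=
      mul_le_mul_of_nonneg_left (hlogη.trans hη2) hθ.le
    have h3 : θ * (κ / (2 * θ)) = κ / 2 := by
      field_simp
    have h4 : Real.log (rho d m η θ) < 0 := by
      rw [hlog]
      linarith
    exact (Real.log_neg_iff hρ1).1 h4
  have hs : 1 + ε / 2 ≤ -(θ + α * Real.log (rho d m η θ) - E) := by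
    rw [hlog]
    have h5 : α * (Real.log (rh d m θ) + θ * Real.log (1 + η)) =
        α * Real.log (rh d m θ) + α * (θ * Real.log (1 + η)) := by ring
    rw [h5]
    linarith
  have hd : 0 < d := by
    have := hR.two_le
    omega
  set M : ℝ := max (d : ℝ) (((∑ j ∈ range d, |(r (j : ℤ) : ℝ)|) + d * B) / η) with hM
  have hM1 : (d : ℝ) ≤ M := le_max_left _ _
  have hM2 : (∑ j ∈ range d, |(r (j : ℤ) : ℝ)|) + d * B ≤ M * η := by
    have := le_max_right (d : ℝ) (((∑ j ∈ range d, |(r (j : ℤ) : ℝ)|) + d * B) / η)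
    rwa [div_le_iff₀ hη0] at this
  have hM0 : 0 ≤ M := le_trans (by positivity) hM1
  set P : Measure (ℤ → ℤ) := Measure.infinitePi fun _ : ℤ => μ with hPdef
  set R : ℝ := (∑ j ∈ range d, fac d m η j) ^ θ with hRdef
  have hR0 : 0 ≤ R := by
    rw [hRdef]
    apply Real.rpow_nonneg
    exact sum_nonneg fun j hj => (fac_pos hR hη0 hj).le
  have hw : ∀ᵐ ω ∂P, ∑' x : ℤ, ({ω : ℤ → ℤ | Long d m r M
      ⌈α * Real.log (2 + |(x : ℝ)|)⌉₊ x ω}).indicator
        (fun _ => ENNReal.ofReal ((2 + |(x : ℝ)|) ^ (-E))) ω < ⊤ := by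
    apply wbc
    have hle : ∀ x : ℤ, ENNReal.ofReal ((2 + |(x : ℝ)|) ^ (-E)) *
        P {ω : ℤ → ℤ | Long d m r M ⌈α * Real.log (2 + |(x : ℝ)|)⌉₊ x ω} ≤
        ENNReal.ofReal (R * (2 + |(x : ℝ)|) ^ (-(-(θ + α * Real.log (rho d m η θ) - E)))) := by
      intro x
      have hy : (2 : ℝ) ≤ 2 + |(x : ℝ)| := by linarith [abs_nonneg (x : ℝ)]
      have hy0 : 0 < 2 + |(x : ℝ)| := by linarith
      have h5 : P {ω : ℤ → ℤ | Long d m r M ⌈α * Real.log (2 + |(x : ℝ)|)⌉₊ x ω} ≤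
          ENNReal.ofReal (R * (2 + |(x : ℝ)|) ^ (θ + α * Real.log (rho d m η θ))) := by
        refine (Pool.Agent.U511.RP.t_PRB d m r μ B hB M _ x).trans (ENNReal.ofReal_le_ofReal ?_)
        refine (iter hR hη0 hθ hM2 hM1 (fun u => measureReal_nonneg) (equi_real μ hB hE) _ x).trans ?_
        have h1 := decay (c := α) hρ1 hρlt _ hy
        have h2 := U_le hR hη0 hθ (M := M) x
        calc rho d m η θ ^ ⌈α * Real.log (2 + |(x : ℝ)|)⌉₊ * U d m η M θ x
            ≤ (2 + |(x : ℝ)|) ^ (α * Real.log (rho d m η θ)) * (R * (2 + |(x : ℝ)|) ^ θ) := by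
              apply mul_le_mul h1 h2 _ (by positivity)
              unfold U
              split_ifs
              · exact le_rfl
              · have := fac_pos hR hη0 (res_mem hd x)
                positivity
          _ = R * (2 + |(x : ℝ)|) ^ (θ + α * Real.log (rho d m η θ)) := by
              rw [Real.rpow_add hy0]
              ring
      refine (mul_le_mul_right h5 _).trans ?_
      rw [← ENNReal.ofReal_mul (by positivity)]
      apply ENNReal.ofReal_le_ofReal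
      apply le_of_eq
      rw [neg_neg, sub_eq_add_neg, Real.rpow_add hy0 (θ + α * Real.log (rho d m η θ)) (-E)]
      ring
    have hsm := summ R (show 1 < -(θ + α * Real.log (rho d m η θ) - E) by linarith)
    have h2 : ∑' x : ℤ, ENNReal.ofReal
        (R * (2 + |(x : ℝ)|) ^ (-(-(θ + α * Real.log (rho d m η θ) - E)))) ≠ ⊤ := by
      rw [← ENNReal.ofReal_tsum_of_nonneg (fun x => by positivity) hsm]
      exact ENNReal.ofReal_ne_top
    exact ne_top_of_le_ne_top h2 (ENNReal.tsum_le_tsum hle)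
  have hgen := gen hR B μ hB hE hθ hρ (c := (2 + θ) / κ) (by
    rw [div_mul_cancel₀ _ hκ0.ne']
    linarith)
  filter_upwards [hw, hgen] with ω h1 h2
  obtain ⟨C₀, hC₀⟩ := h2
  set D : ℕ := ⌈(2 + θ) / κ * Real.log (2 + M) + C₀⌉₊ with hD
  have hDb : ∀ y : ℤ, |(y : ℝ)| < M → (Set.range fun i : ℕ => (stp d m r ω)^[i] y).Finite ∧
      (Set.range fun i : ℕ => (stp d m r ω)^[i] y).ncard ≤ D := by
    intro y hy
    refine ⟨(hC₀ y).1, ?_⟩
    have h3 : ((Set.range fun i : ℕ => (stp d m r ω)^[i] y).ncard : ℝ) ≤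
        (2 + θ) / κ * Real.log (2 + M) + C₀ := by
      refine (hC₀ y).2.trans ?_
      have h4 : Real.log (2 + |(y : ℝ)|) ≤ Real.log (2 + M) :=
        Real.log_le_log (by positivity) (by linarith)
      have h5 : (2 + θ) / κ * Real.log (2 + |(y : ℝ)|) ≤ (2 + θ) / κ * Real.log (2 + M) :=
        mul_le_mul_of_nonneg_left h4 (by positivity)
      linarith
    have h6 : ((Set.range fun i : ℕ => (stp d m r ω)^[i] y).ncard : ℝ) ≤ (D : ℝ) :=
      h3.trans (Nat.le_ceil _)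
    exact_mod_cast h6
  set S : ℝ := (∑' x : ℤ, ({ω : ℤ → ℤ | Long d m r M
      ⌈α * Real.log (2 + |(x : ℝ)|)⌉₊ x ω}).indicator
        (fun _ => ENNReal.ofReal ((2 + |(x : ℝ)|) ^ (-E))) ω).toReal with hS
  have hS0 : 0 ≤ S := ENNReal.toReal_nonneg
  have hcnt := count (s := fun x => Long d m r M ⌈α * Real.log (2 + |(x : ℝ)|)⌉₊ x ω) hE0 hS0 (by
    rw [hS, ENNReal.ofReal_toReal h1.ne]
    apply le_of_eq
    apply tsum_congr
    intro x
    unfold Set.indicator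
    rfl)
  set C : ℝ := max (1 + D) (S * 3 ^ E) with hC
  refine ⟨C, le_trans (by positivity) (le_max_left _ _), fun X hX => ?_⟩
  have hsub : {x : ℤ | |(x : ℝ)| ≤ X ∧ α * Real.log (2 + |(x : ℝ)|) + C <
      ((Set.range fun i : ℕ => (stp d m r ω)^[i] x).ncard : ℝ)} ⊆
      {x : ℤ | |(x : ℝ)| ≤ X ∧ Long d m r M ⌈α * Real.log (2 + |(x : ℝ)|)⌉₊ x ω} := by
    rintro x ⟨hx1, hx2⟩
    refine ⟨hx1, ?_⟩
    by_contra hcon
    have h3 := short hDb hcon
    have h4 : ((Set.range fun i : ℕ => (stp d m r ω)^[i] x).ncard : ℝ) ≤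
        (⌈α * Real.log (2 + |(x : ℝ)|)⌉₊ : ℝ) + D := by exact_mod_cast h3
    have hlog0 : 0 ≤ Real.log (2 + |(x : ℝ)|) := Real.log_nonneg (by linarith [abs_nonneg (x : ℝ)])
    have h5 := Nat.ceil_lt_add_one (a := α * Real.log (2 + |(x : ℝ)|)) (by positivity)
    have h6 : (1 + D : ℝ) ≤ C := le_max_left _ _
    linarith
  obtain ⟨hf, hc⟩ := hcnt X hX
  refine ⟨hf.subset hsub, ?_⟩
  have h7 : ({x : ℤ | |(x : ℝ)| ≤ X ∧ α * Real.log (2 + |(x : ℝ)|) + C <
      ((Set.range fun i : ℕ => (stp d m r ω)^[i] x).ncard : ℝ)}.ncard : ℝ) ≤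
      ({x : ℤ | |(x : ℝ)| ≤ X ∧ Long d m r M ⌈α * Real.log (2 + |(x : ℝ)|)⌉₊ x ω}.ncard : ℝ) := by
    exact_mod_cast Set.ncard_le_ncard hsub hf
  refine h7.trans (hc.trans ?_)
  apply mul_le_mul_of_nonneg_right (le_max_right _ _)
  positivity

end Pool.Agent.U165.SC
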